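import Pool.Agent.Lib.MP_c4ae4c_al.Words

/-!
Classification of the words in two letters that define an associative operation on the free
group of rank three.
-/

namespace Pool.Agent.Lib.MP_c4ae4c_al

open FreeGroup

/-- Exponent sum of the letter `k`. -/
def expo {α : Type*} [DecidableEq α] (k : α) : FreeGroup α →* Multiplicative ℤ :=
  FreeGroup.lift fun i => Multiplicative.ofAdd (if i = k then 1 else 0)

/-- Substitution in a word in two letters. -/
def sub2 {G : Type*} [Group G] (x y : G) : FreeGroup (Fin 2) →* G := FreeGroup.lift ![x, y]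

lemma sub2_zero {G : Type*} [Group G] (x y : G) : sub2 x y (FreeGroup.of 0) = x := by
  simp [sub2]

lemma sub2_one {G : Type*} [Group G] (x y : G) : sub2 x y (FreeGroup.of 1) = y := by
  simp [sub2]

lemma map_sub2 {G H : Type*} [Group G] [Group H] (f : G →* H) (x y : G)
    (w : FreeGroup (Fin 2)) : f (sub2 x y w) = sub2 (f x) (f y) w := by
  have : f.comp (sub2 x y) = sub2 (f x) (f y) := by
    ext i
    fin_cases i <;> simp [sub2]
  rw [← this]; rfl

lemma sub2_comm {H : Type*} [CommGroup H] (x y : H) (w : FreeGroup (Fin 2)) :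
    sub2 x y w = x ^ (Multiplicative.toAdd (expo 0 w)) * y ^ (Multiplicative.toAdd (expo 1 w)) := by
  induction w using FreeGroup.induction_on with
  | C1 => simp
  | of i => fin_cases i <;> simp [sub2, expo]
  | inv_of i _ => fin_cases i <;> simp [sub2, expo]
  | mul a b ha hb =>
    simp only [_root_.map_mul, ha, hb, toAdd_mul, zpow_add]
    exact mul_mul_mul_comm _ _ _ _

lemma expo_sub2 {α : Type*} [DecidableEq α] (k : α) (x y : FreeGroup α)
    (w : FreeGroup (Fin 2)) :
    Multiplicative.toAdd (expo k (sub2 x y w)) =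
      Multiplicative.toAdd (expo 0 w) * Multiplicative.toAdd (expo k x)
        + Multiplicative.toAdd (expo 1 w) * Multiplicative.toAdd (expo k y) := by
  rw [map_sub2, sub2_comm]
  simp

lemma sub2_self (w : FreeGroup (Fin 2)) : sub2 (FreeGroup.of 0) (FreeGroup.of 1) w = w := by
  have : sub2 (FreeGroup.of 0) (FreeGroup.of 1) = MonoidHom.id (FreeGroup (Fin 2)) := by
    ext i
    fin_cases i <;> simp [sub2]
  rw [this]; rfl

/-- `sub2` at two distinct letters is injective. -/
lemma sub2_of_injective {α : Type*} [DecidableEq α] {i j : α} (hij : i ≠ j) :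
    Function.Injective (sub2 (FreeGroup.of i) (FreeGroup.of j)) := by
  intro w w' h
  let r : FreeGroup α →* FreeGroup (Fin 2) :=
    FreeGroup.lift fun k => if k = i then FreeGroup.of 0 else if k = j then FreeGroup.of 1 else 1
  have h2 := congrArg r h
  rw [map_sub2, map_sub2] at h2
  have ri : r (FreeGroup.of i) = FreeGroup.of 0 := by simp [r]
  have rj : r (FreeGroup.of j) = FreeGroup.of 1 := by simp [r, hij.symm]
  rwa [ri, rj, sub2_self, sub2_self] at h2

lemma sub2_sfree {α : Type*} [DecidableEq α] {s : α} {x y : FreeGroup α} (hx : SFree s x)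
    (hy : SFree s y) (w : FreeGroup (Fin 2)) : SFree s (sub2 x y w) := by
  induction w using FreeGroup.induction_on with
  | C1 => simpa using SFree.one s
  | of i => fin_cases i <;> simpa [sub2]
  | inv_of i _ => fin_cases i <;> simpa [sub2] using SFree.inv ‹_›
  | mul a b ha hb => rw [_root_.map_mul]; exact ha.mul hb

/-- The reduced word of an `s`-free element has no letter `s`. -/
lemma SFree.toWord {α : Type*} [DecidableEq α] {s : α} {u : FreeGroup α} (h : SFree s u) :
    ∀ l ∈ u.toWord, l.1 ≠ s := by
  obtain ⟨L, rfl, hL⟩ := h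
  intro l hl
  rw [FreeGroup.toWord_mk] at hl
  exact hL l ((FreeGroup.Red.sublist FreeGroup.reduce.red).subset hl)

/-- A list of letters all equal to `k` is a power of `of k`. -/
lemma mk_eq_zpow {α : Type*} (k : α) (L : List (α × Bool)) (h : ∀ l ∈ L, l.1 = k) :
    ∃ n : ℤ, FreeGroup.mk L = FreeGroup.of k ^ n := by
  induction L with
  | nil => exact ⟨0, by simp [FreeGroup.one_eq_mk]⟩
  | cons a L ih =>
    obtain ⟨n, hn⟩ := ih fun l hl => h l (List.mem_cons_of_mem _ hl)
    obtain ⟨c, d⟩ := a
    have hc : c = k := h (c, d) List.mem_cons_self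
    subst hc
    refine ⟨(if d then 1 else -1) + n, ?_⟩
    have e : FreeGroup.mk ((c, d) :: L) = FreeGroup.mk [(c, d)] * FreeGroup.mk L := by
      rw [FreeGroup.mul_mk]; rfl
    rw [e, hn, zpow_add]
    congr 1
    cases d <;> simp [FreeGroup.of, FreeGroup.inv_mk, FreeGroup.invRev]

/-- If `g ^ n = (of i) ^ n * (of j) ^ n` with `i ≠ j` and `n ≥ 1` then `n = 1`. -/
lemma root_two_syllables {α : Type*} [DecidableEq α] {i j : α} (hij : i ≠ j)
    (g : FreeGroup α) (n : ℕ) (hn : 1 ≤ n)
    (h : g ^ n = FreeGroup.of i ^ n * FreeGroup.of j ^ n) : n = 1 := by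
  obtain ⟨m, rfl⟩ : ∃ m, n = m + 1 := ⟨n - 1, by omega⟩
  by_contra hm
  have hred : FreeGroup.IsReduced
      (List.replicate (m + 1) (i, true) ++ List.replicate (m + 1) (j, true)) := by
    unfold FreeGroup.IsReduced
    rw [List.isChain_append]
    refine ⟨List.isChain_replicate_of_rel _ (by simp), List.isChain_replicate_of_rel _ (by simp), ?_⟩
    intro x hx y hy hxy
    rw [List.getLast?_replicate] at hx
    rw [List.head?_replicate] at hy
    simp at hx hy
    subst hx; subst hy; rfl
  have hw : (FreeGroup.of i ^ (m + 1) * FreeGroup.of j ^ (m + 1)).toWord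
      = List.replicate (m + 1) (i, true) ++ List.replicate (m + 1) (j, true) := by
    rw [FreeGroup.toWord_mul, FreeGroup.toWord_of_pow, FreeGroup.toWord_of_pow]
    exact hred.reduce_eq
  have hg := congrArg FreeGroup.toWord h
  rw [hw, FreeGroup.toWord_pow,
    FreeGroup.reduceCyclically.reduce_flatten_replicate_succ FreeGroup.isReduced_toWord] at hg
  set C := FreeGroup.reduceCyclically.conjugator g.toWord with hC
  set R := FreeGroup.reduceCyclically g.toWord with hR
  rcases hCc : C with _ | ⟨c, C'⟩
  · rw [hCc] at hg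
    simp only [List.nil_append, FreeGroup.invRev, List.map_nil, List.reverse_nil,
      List.append_nil] at hg
    have hlen := congrArg List.length hg
    simp only [List.length_flatten, List.map_replicate, List.sum_replicate, List.length_append,
      List.length_replicate, smul_eq_mul] at hlen
    have hR2 : R.length = 2 := by
      have : (m + 1) * R.length = (m + 1) * 2 := by omega
      exact Nat.eq_of_mul_eq_mul_left (by omega) this
    obtain ⟨r1, r2, hRe⟩ : ∃ r1 r2, R = [r1, r2] := List.length_eq_two.mp hR2
    rw [hRe] at hg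
    obtain ⟨k, rfl⟩ : ∃ k, m = k + 1 := ⟨m - 1, by omega⟩
    have h1 := hg
    simp only [List.replicate_succ, List.flatten_cons, List.cons_append, List.nil_append,
      List.cons.injEq] at h1
    obtain ⟨e1, e2, _⟩ := h1
    -- last letter
    have hmem : (j, true) ∈ (List.replicate (k + 1 + 1) [r1, r2]).flatten := by
      rw [hg]
      apply List.mem_append_right
      rw [List.mem_replicate]
      exact ⟨by omega, rfl⟩
    rw [List.mem_flatten] at hmem
    obtain ⟨l, hl, hjl⟩ := hmem
    rw [List.mem_replicate] at hl
    rw [hl.2, e1, e2] at hjl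
    simp at hjl
    exact hij hjl.symm
  · rw [hCc] at hg
    -- first letter
    have h1 : c = (i, true) := by
      have h1 := hg
      rw [List.replicate_succ (a := (i, true)), List.cons_append, List.cons_append,
        List.cons_append] at h1
      exact (List.cons.inj h1).1
    have h2 : (c.1, !c.2) = (j, true) := by
      have h2 := congrArg List.getLast? hg
      rw [List.replicate_succ' (a := (j, true))] at h2
      simp only [FreeGroup.invRev, List.map_cons, List.reverse_cons, ← List.append_assoc,
        List.getLast?_append, List.getLast?_singleton, Option.some_or, Option.some.injEq] at h2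
      exact h2
    rw [h1] at h2
    simp at h2


lemma zpow_ne_one_of_ne_one {α : Type*} {u : FreeGroup α} (hu : u ≠ 1) (n : ℤ) (hn : n ≠ 0) :
    u ^ n ≠ 1 := by
  intro h
  obtain ⟨m, rfl | rfl⟩ := n.eq_nat_or_neg
  · rw [zpow_natCast] at h
    have hm : m ≠ 0 := by simpa using hn
    exact hu (pow_left_injective hm (by simpa using h))
  · rw [zpow_neg, zpow_natCast, inv_eq_one] at h
    have hm : m ≠ 0 := by simpa using hn
    exact hu (pow_left_injective hm (by simpa using h))

lemma eq_of_zpow_eq {α : Type*} {u v : FreeGroup α} (n : ℤ) (hn : n ≠ 0) (h : u ^ n = v ^ n) :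
    u = v := by
  obtain ⟨m, rfl | rfl⟩ := n.eq_nat_or_neg
  · rw [zpow_natCast, zpow_natCast] at h
    have hm : m ≠ 0 := by simpa using hn
    exact pow_left_injective hm h
  · rw [zpow_neg, zpow_natCast, zpow_neg, zpow_natCast, inv_inj] at h
    have hm : m ≠ 0 := by simpa using hn
    exact pow_left_injective hm h

lemma mk_cons' {α : Type*} (a : α × Bool) (L : List (α × Bool)) :
    FreeGroup.mk (a :: L) = FreeGroup.mk [a] * FreeGroup.mk L := by
  rw [FreeGroup.mul_mk]; rfl

/-- The initial segment of `w(x, v)` before the first `z`. -/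
lemma pre_two {v : FreeGroup (Fin 3)} (hv : SFree (0 : Fin 3) v) (hv1 : v ≠ 1)
    (hz : ∀ n : ℤ, n ≠ 0 → ∃ l ∈ (v ^ n).toWord, l.1 = 2)
    (M : List (Fin 2 × Bool)) (hM : FreeGroup.IsReduced M) :
    ∃ k : ℤ, pre (2 : Fin 3) (sub2 (FreeGroup.of 0) v (FreeGroup.mk M)) =
      FreeGroup.of 0 ^ run 0 M * FreeGroup.of 1 ^ k := by
  have hev : ∀ g, sub2 (FreeGroup.of 0) v g = ev (0 : Fin 3) 1 v g := by
    intro g
    have : sub2 (FreeGroup.of 0) v = ev (0 : Fin 3) 1 v := by
      ext i
      fin_cases i <;> simp [sub2, ev]
    rw [this]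
  induction M with
  | nil =>
    refine ⟨0, ?_⟩
    change pre 2 (sub2 _ v 1) = _
    rw [_root_.map_one, pre_one]
    simp [run]
  | cons a M ih =>
    obtain ⟨i, b⟩ := a
    have hM' : FreeGroup.IsReduced M := by
      cases M with
      | nil => exact FreeGroup.IsReduced.nil
      | cons x M => exact (FreeGroup.isReduced_cons_cons.mp hM).2
    obtain ⟨k, hk⟩ := ih hM'
    by_cases hi : i = 0
    · subst hi
      refine ⟨k, ?_⟩
      rw [mk_cons', _root_.map_mul]
      have h1 : sub2 (FreeGroup.of 0) v (FreeGroup.mk [((0 : Fin 2), b)])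
          = FreeGroup.mk [((0 : Fin 3), b)] := by
        cases b <;> simp [sub2, FreeGroup.of, FreeGroup.inv_mk, FreeGroup.invRev]
      rw [h1, pre_letter_mul (by decide), hk, ← mul_assoc, run_cons_self]
      congr 1
      rw [zpow_add]
      congr 1
      cases b <;> simp [FreeGroup.of, FreeGroup.inv_mk, FreeGroup.invRev]
    · have hi1 : i = 1 := by
        have : ∀ x : Fin 2, x ≠ 0 → x = 1 := by decide
        exact this i hi
      subst hi1
      rw [run_cons_ne (by decide), zpow_zero]
      simp only [one_mul]
      set g := sub2 (FreeGroup.of 0) v (FreeGroup.mk ((1, b) :: M)) with hg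
      have h1 : pre (0 : Fin 3) g = v ^ run 1 ((1, b) :: M) := by
        rw [hg, hev]
        exact (pre_ev hv (zpow_ne_one_of_ne_one hv1) 1 _ hM).1
      have hr := run_ne_zero 1 M b hM
      obtain ⟨l, hl, hl2⟩ := hz _ hr
      rw [← h1] at hl
      have h2 : (pre (0 : Fin 3) g).toWord = g.toWord.takeWhile fun l => decide (l.1 ≠ 0) := by
        unfold pre
        rw [FreeGroup.toWord_mk]
        apply FreeGroup.IsReduced.reduce_eq
        have hchain := @FreeGroup.isReduced_toWord _ _ g
        unfold FreeGroup.IsReduced at hchain ⊢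
        rw [← List.takeWhile_append_dropWhile (p := fun l : Fin 3 × Bool => decide (l.1 ≠ 0))
          (l := g.toWord)] at hchain
        exact (List.isChain_append.mp hchain).1
      rw [h2] at hl
      -- the prefix before the first `2` has only letters `1`
      apply mk_eq_zpow
      intro l' hl'
      have key : ∀ L : List (Fin 3 × Bool), (∃ l ∈ L.takeWhile (fun l => decide (l.1 ≠ 0)),
          l.1 = 2) → ∀ l' ∈ L.takeWhile (fun l => decide (l.1 ≠ 2)), l'.1 = 1 := by
        intro L
        induction L with
        | nil => intro _ l' hl'; simp at hl'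
        | cons a L ihL =>
          intro h l' hl'
          by_cases ha2 : a.1 = 2
          · rw [List.takeWhile_cons_of_neg (by simpa using ha2)] at hl'
            simp at hl'
          · rw [List.takeWhile_cons_of_pos (by simpa using ha2)] at hl'
            by_cases ha0 : a.1 = 0
            · rw [List.takeWhile_cons_of_neg (by simpa using ha0)] at h
              obtain ⟨l, hl, _⟩ := h
              simp at hl
            · rw [List.takeWhile_cons_of_pos (by simpa using ha0)] at h
              have ha1 : a.1 = 1 := by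
                have : ∀ x : Fin 3, x ≠ 0 → x ≠ 2 → x = 1 := by decide
                exact this _ ha0 ha2
              rcases List.mem_cons.mp hl' with rfl | hl'
              · exact ha1
              · apply ihL _ l' hl'
                obtain ⟨l, hl, hl2⟩ := h
                rcases List.mem_cons.mp hl with rfl | hl
                · exact absurd hl2 ha2
                · exact ⟨l, hl, hl2⟩
      exact key _ ⟨l, hl, hl2⟩ l' hl'

/-- Associativity of the operation given by `w`. -/
def AssocWord (w : FreeGroup (Fin 2)) (G : Type*) [Group G] : Prop :=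
  ∀ p q r : G, sub2 (sub2 p q w) r w = sub2 p (sub2 q r w) w

/-- Exponent sums of an associative word are idempotent. -/
lemma expo_idem {w : FreeGroup (Fin 2)} (h : AssocWord w (FreeGroup (Fin 3))) :
    Multiplicative.toAdd (expo 0 w) * Multiplicative.toAdd (expo 0 w)
      = Multiplicative.toAdd (expo 0 w) ∧
    Multiplicative.toAdd (expo 1 w) * Multiplicative.toAdd (expo 1 w)
      = Multiplicative.toAdd (expo 1 w) := by
  have h1 := h (FreeGroup.of 0) 1 1
  have h2 := h 1 1 (FreeGroup.of 0)
  have h1' := congrArg (fun g => Multiplicative.toAdd (expo (0 : Fin 3) g)) h1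
  have h2' := congrArg (fun g => Multiplicative.toAdd (expo (0 : Fin 3) g)) h2
  simp only [expo_sub2, _root_.map_one, toAdd_one, mul_zero, add_zero, zero_add] at h1' h2'
  have e : Multiplicative.toAdd (expo (0 : Fin 3) (FreeGroup.of 0)) = 1 := by simp [expo]
  rw [e] at h1' h2'
  simp only [mul_one] at h1' h2'
  exact ⟨h1', h2'.symm⟩

/-- The case of a word whose reduced form starts with the first letter. -/
lemma assoc_start_zero (w : FreeGroup (Fin 2)) (h : AssocWord w (FreeGroup (Fin 3)))
    (b : Bool) (L : List (Fin 2 × Bool)) (hL : w.toWord = (0, b) :: L) :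
    w = FreeGroup.of 0 ∨ w = FreeGroup.of 0 * FreeGroup.of 1 ∨
      w = FreeGroup.of 1 * FreeGroup.of 0 := by
  have hw1 : w ≠ 1 := by
    rintro rfl
    rw [FreeGroup.toWord_one] at hL
    exact absurd hL.symm (List.cons_ne_nil _ _)
  set u : FreeGroup (Fin 3) := sub2 (FreeGroup.of 0) (FreeGroup.of 1) w with hu
  set v : FreeGroup (Fin 3) := sub2 (FreeGroup.of 1) (FreeGroup.of 2) w with hv
  have hu1 : u ≠ 1 := by
    intro hc
    apply hw1
    apply sub2_of_injective (show (0 : Fin 3) ≠ 1 by decide)
    rw [_root_.map_one]; exact hc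
  have hv1 : v ≠ 1 := by
    intro hc
    apply hw1
    apply sub2_of_injective (show (1 : Fin 3) ≠ 2 by decide)
    rw [_root_.map_one]; exact hc
  have hus : SFree (2 : Fin 3) u :=
    sub2_sfree (SFree.of (by decide)) (SFree.of (by decide)) w
  have hvs : SFree (0 : Fin 3) v :=
    sub2_sfree (SFree.of (by decide)) (SFree.of (by decide)) w
  obtain ⟨hm, hn⟩ := expo_idem h
  set m := Multiplicative.toAdd (expo 0 w) with hmdef
  set n := Multiplicative.toAdd (expo 1 w) with hndef
  have hred : FreeGroup.IsReduced ((0, b) :: L) := by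
    rw [← hL]; exact FreeGroup.isReduced_toWord
  have hwmk : w = FreeGroup.mk ((0, b) :: L) := by rw [← hL, FreeGroup.mk_toWord]
  have he : run 0 ((0, b) :: L) ≠ 0 := run_ne_zero 0 L b hred
  set e := run 0 ((0, b) :: L) with hedef
  have hm01 : m = 0 ∨ m = 1 := by
    have : m * (m - 1) = 0 := by rw [mul_sub, hm]; simp
    rcases mul_eq_zero.mp this with h | h
    · exact Or.inl h
    · exact Or.inr (by omega)
  have hn01 : n = 0 ∨ n = 1 := by
    have : n * (n - 1) = 0 := by rw [mul_sub, hn]; simp
    rcases mul_eq_zero.mp this with h | h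
    · exact Or.inl h
    · exact Or.inr (by omega)
  by_cases hz : ∀ k : ℤ, k ≠ 0 → ∃ l ∈ (v ^ k).toWord, l.1 = 2
  · -- main case
    have hassoc := h (FreeGroup.of 0) (FreeGroup.of 1) (FreeGroup.of 2)
    rw [← hu, ← hv] at hassoc
    have hl : pre (2 : Fin 3) (sub2 u (FreeGroup.of 2) w) = u ^ e := by
      have : sub2 u (FreeGroup.of 2) = ev (2 : Fin 3) 0 u := by
        ext i
        fin_cases i <;> simp [sub2, ev]
      rw [this, hwmk]
      exact (pre_ev hus (zpow_ne_one_of_ne_one hu1) 0 _ hred).1
    obtain ⟨k, hk⟩ := pre_two hvs hv1 hz _ hred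
    rw [← hwmk, ← hassoc, hl] at hk
    -- exponent sums
    have hE0 := congrArg (fun g => Multiplicative.toAdd (expo (0 : Fin 3) g)) hk
    have hE1 := congrArg (fun g => Multiplicative.toAdd (expo (1 : Fin 3) g)) hk
    simp only [map_zpow, toAdd_zpow, _root_.map_mul, toAdd_mul, smul_eq_mul] at hE0 hE1
    have e00 : Multiplicative.toAdd (expo (0 : Fin 3) (FreeGroup.of 0)) = 1 := by simp [expo]
    have e01 : Multiplicative.toAdd (expo (0 : Fin 3) (FreeGroup.of 1)) = 0 := by simp [expo]
    have e10 : Multiplicative.toAdd (expo (1 : Fin 3) (FreeGroup.of 0)) = 0 := by simp [expo]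
    have e11 : Multiplicative.toAdd (expo (1 : Fin 3) (FreeGroup.of 1)) = 1 := by simp [expo]
    have eu0 : Multiplicative.toAdd (expo (0 : Fin 3) u) = m := by
      rw [hu, expo_sub2, e00, e01]; simp [hmdef]
    have eu1 : Multiplicative.toAdd (expo (1 : Fin 3) u) = n := by
      rw [hu, expo_sub2, e10, e11]; simp [hndef]
    rw [e00, e01, eu0] at hE0
    rw [e10, e11, eu1] at hE1
    have hm1 : m = 1 := by
      rcases hm01 with h0 | h0
      · rw [h0] at hE0
        exfalso; apply he; rw [← hedef] at hE0; omega
      · exact h0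
    rcases hn01 with h0 | h0
    · -- `n = 0`
      left
      rw [h0] at hE1
      have hk0 : k = 0 := by rw [← hedef] at hE1; omega
      rw [hk0, zpow_zero, mul_one] at hk
      have h3 := eq_of_zpow_eq _ he hk
      apply sub2_of_injective (show (0 : Fin 3) ≠ 1 by decide)
      rw [← hu, h3, sub2_zero]
    · -- `n = 1`
      right
      rw [h0] at hE1
      have hke : k = e := by rw [← hedef] at hE1; omega
      rw [hke, ← hedef] at hk
      -- pull back to the free group of rank two
      have hwe : w ^ e = FreeGroup.of 0 ^ e * FreeGroup.of 1 ^ e := by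
        apply sub2_of_injective (show (0 : Fin 3) ≠ 1 by decide)
        rw [map_zpow, _root_.map_mul, map_zpow, map_zpow, sub2_zero, sub2_one, ← hu]
        exact hk
      rcases lt_or_gt_of_ne he with hneg | hpos
      · right
        obtain ⟨N, hN⟩ : ∃ N : ℕ, e = -(N : ℤ) := ⟨e.natAbs, by omega⟩
        have hN1 : 1 ≤ N := by omega
        have h4 : w ^ N = FreeGroup.of 1 ^ N * FreeGroup.of 0 ^ N := by
          have h5 := congrArg (fun g => g⁻¹) hwe
          simp only [hN, zpow_neg, inv_inv, mul_inv_rev, zpow_natCast] at h5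
          exact h5
        have h6 := root_two_syllables (show (1 : Fin 2) ≠ 0 by decide) w N hN1 h4
        rw [h6, pow_one, pow_one, pow_one] at h4
        exact h4
      · left
        obtain ⟨N, hN⟩ : ∃ N : ℕ, e = (N : ℤ) := ⟨e.natAbs, by omega⟩
        have hN1 : 1 ≤ N := by omega
        have h4 : w ^ N = FreeGroup.of 0 ^ N * FreeGroup.of 1 ^ N := by
          rw [hN] at hwe
          simpa using hwe
        have h6 := root_two_syllables (show (0 : Fin 2) ≠ 1 by decide) w N hN1 h4
        rw [h6, pow_one, pow_one, pow_one] at h4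
        exact h4
  · -- degenerate case: some power of `v` is a power of `y`
    left
    push Not at hz
    obtain ⟨k, hk0, hk⟩ := hz
    have hvk : ∃ j : ℤ, v ^ k = FreeGroup.of 1 ^ j := by
      have h1 : ∀ l ∈ (v ^ k).toWord, l.1 = 1 := by
        intro l hl
        have h0 : l.1 ≠ 0 := (hvs.zpow k).toWord l hl
        have h2 := hk l hl
        have : ∀ x : Fin 3, x ≠ 0 → x ≠ 2 → x = 1 := by decide
        exact this _ h0 h2
      obtain ⟨j, hj⟩ := mk_eq_zpow 1 _ h1
      exact ⟨j, by rw [← hj, FreeGroup.mk_toWord]⟩
    obtain ⟨j, hj⟩ := hvk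
    have e11 : Multiplicative.toAdd (expo (1 : Fin 3) (FreeGroup.of 1)) = 1 := by simp [expo]
    have e12 : Multiplicative.toAdd (expo (1 : Fin 3) (FreeGroup.of 2)) = 0 := by simp [expo]
    have ev1 : Multiplicative.toAdd (expo (1 : Fin 3) v) = m := by
      rw [hv, expo_sub2, e11, e12]; simp [hmdef]
    have hE := congrArg (fun g => Multiplicative.toAdd (expo (1 : Fin 3) g)) hj
    simp only [map_zpow, toAdd_zpow, smul_eq_mul] at hE
    rw [ev1, e11] at hE
    have hv2 : v = FreeGroup.of 1 ^ m := by
      apply eq_of_zpow_eq k hk0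
      rw [hj, ← zpow_mul]
      congr 1
      rw [mul_comm m k]; omega
    have hwm : w = FreeGroup.of 0 ^ m := by
      apply sub2_of_injective (show (1 : Fin 3) ≠ 2 by decide)
      rw [map_zpow, sub2_zero, ← hv]
      exact hv2
    rcases hm01 with h0 | h0
    · rw [h0, zpow_zero] at hwm
      exact absurd hwm hw1
    · rw [h0, zpow_one] at hwm
      exact hwm

/-- **Classification of associative words.** -/
theorem assoc_words (w : FreeGroup (Fin 2)) (h : AssocWord w (FreeGroup (Fin 3))) :
    w = 1 ∨ w = FreeGroup.of 0 ∨ w = FreeGroup.of 1 ∨ w = FreeGroup.of 0 * FreeGroup.of 1 ∨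
      w = FreeGroup.of 1 * FreeGroup.of 0 := by
  rcases hL : w.toWord with _ | ⟨⟨i, b⟩, L⟩
  · left
    exact FreeGroup.toWord_eq_nil_iff.mp hL
  · by_cases hi : i = 0
    · subst hi
      rcases assoc_start_zero w h b L hL with h1 | h1 | h1
      · exact Or.inr (Or.inl h1)
      · exact Or.inr (Or.inr (Or.inr (Or.inl h1)))
      · exact Or.inr (Or.inr (Or.inr (Or.inr h1)))
    · have hi1 : i = 1 := by
        have : ∀ x : Fin 2, x ≠ 0 → x = 1 := by decide
        exact this i hi
      subst hi1
      -- swap the two letters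
      set w' : FreeGroup (Fin 2) := sub2 (FreeGroup.of 1) (FreeGroup.of 0) w with hw'
      have hsub : ∀ (G : Type) [Group G] (p q : G), sub2 p q w' = sub2 q p w := by
        intro G _ p q
        rw [hw', map_sub2, sub2_zero, sub2_one]
      have h' : AssocWord w' (FreeGroup (Fin 3)) := by
        intro p q r
        rw [hsub, hsub, hsub, hsub]
        exact (h r q p).symm
      have hword : w'.toWord = w.toWord.map fun l => (if l.1 = 0 then 1 else 0, l.2) := by
        have e1 : w' = FreeGroup.mk (w.toWord.map fun l => (if l.1 = 0 then 1 else 0, l.2)) := by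
          have e2 : ∀ M : List (Fin 2 × Bool), sub2 (FreeGroup.of (1 : Fin 2))
              (FreeGroup.of (0 : Fin 2)) (FreeGroup.mk M)
                = FreeGroup.mk (M.map fun l => (if l.1 = 0 then 1 else 0, l.2)) := by
            intro M
            induction M with
            | nil => exact _root_.map_one _
            | cons a M ih =>
              rw [mk_cons', _root_.map_mul, ih, List.map_cons, mk_cons' (_, _)]
              obtain ⟨i, b⟩ := a
              fin_cases i <;> cases b <;>
                simp [sub2, FreeGroup.of, FreeGroup.inv_mk, FreeGroup.invRev]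
          rw [hw']
          conv_lhs => rw [← FreeGroup.mk_toWord (x := w)]
          exact e2 _
        rw [e1, FreeGroup.toWord_mk]
        apply FreeGroup.IsReduced.reduce_eq
        unfold FreeGroup.IsReduced
        rw [List.isChain_map]
        have := @FreeGroup.isReduced_toWord _ _ w
        unfold FreeGroup.IsReduced at this
        apply this.imp
        intro a b hab hc
        apply hab
        have : ∀ x y : Fin 2, (if x = 0 then (1 : Fin 2) else 0) = (if y = 0 then 1 else 0) →
            x = y := by decide
        exact this _ _ hc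
      have hL' : w'.toWord = (0, b) :: (L.map fun l => (if l.1 = 0 then 1 else 0, l.2)) := by
        rw [hword, hL]
        simp
      have hback : w = sub2 (FreeGroup.of 1) (FreeGroup.of 0) w' := by
        rw [hsub, sub2_self]
      rcases assoc_start_zero w' h' b _ hL' with h1 | h1 | h1
      · rw [h1, sub2_zero] at hback
        exact Or.inr (Or.inr (Or.inl hback))
      · rw [h1, _root_.map_mul, sub2_zero, sub2_one] at hback
        exact Or.inr (Or.inr (Or.inr (Or.inr hback)))
      · rw [h1, _root_.map_mul, sub2_zero, sub2_one] at hback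
        exact Or.inr (Or.inr (Or.inr (Or.inl hback)))

end Pool.Agent.Lib.MP_c4ae4c_al
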