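import Mathlib

/-!
Free groups are residually nilpotent, through explicit unitriangular integer matrices.
-/

namespace Pool.Agent.Lib.MP_c4ae4c_al

open Matrix
open scoped commutatorElement

/-- Matrices supported on entries `(p, q)` with `q ≥ p + j`. -/
def Band (m j : ℕ) : Set (Matrix (Fin m) (Fin m) ℤ) :=
  {M | ∀ p q : Fin m, (q : ℕ) < p + j → M p q = 0}

lemma Band.add {m j : ℕ} {M N : Matrix (Fin m) (Fin m) ℤ} (hM : M ∈ Band m j)
    (hN : N ∈ Band m j) : M + N ∈ Band m j := by
  intro p q h
  simp [hM p q h, hN p q h]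

lemma Band.neg {m j : ℕ} {M : Matrix (Fin m) (Fin m) ℤ} (hM : M ∈ Band m j) :
    -M ∈ Band m j := by
  intro p q h
  simp [hM p q h]

lemma Band.sub {m j : ℕ} {M N : Matrix (Fin m) (Fin m) ℤ} (hM : M ∈ Band m j)
    (hN : N ∈ Band m j) : M - N ∈ Band m j := by
  rw [sub_eq_add_neg]
  exact Band.add hM (Band.neg hN)

lemma Band.mul {m i j : ℕ} {M N : Matrix (Fin m) (Fin m) ℤ} (hM : M ∈ Band m i)
    (hN : N ∈ Band m j) : M * N ∈ Band m (i + j) := by
  intro p q h
  rw [Matrix.mul_apply]
  apply Finset.sum_eq_zero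
  intro t _
  by_cases h1 : (t : ℕ) < p + i
  · rw [hM p t h1, zero_mul]
  · rw [hN t q (by omega), mul_zero]

lemma Band.mono {m i j : ℕ} (hij : i ≤ j) {M : Matrix (Fin m) (Fin m) ℤ}
    (hM : M ∈ Band m j) : M ∈ Band m i := by
  intro p q h
  exact hM p q (by omega)

lemma Band.one {m : ℕ} : (1 : Matrix (Fin m) (Fin m) ℤ) ∈ Band m 0 := by
  intro p q h
  rw [Matrix.one_apply_ne]
  intro e
  subst e
  simp at h

lemma Band.eq_zero {m : ℕ} {M : Matrix (Fin m) (Fin m) ℤ} (hM : M ∈ Band m m) : M = 0 := by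
  ext p q
  exact hM p q (by omega)

/-- If a homomorphism takes values in unitriangular matrices, then it sends the lower central
series deep into the band filtration. -/
lemma lcs_band {F : Type*} [Group F] {m : ℕ} (ρ : F →* (Matrix (Fin m) (Fin m) ℤ)ˣ)
    (hρ : ∀ g, ((ρ g : Matrix (Fin m) (Fin m) ℤ) - 1) ∈ Band m 1) (k : ℕ) :
    ∀ g ∈ (⊤ : Subgroup F).lowerCentralSeries k,
      ((ρ g : Matrix (Fin m) (Fin m) ℤ) - 1) ∈ Band m (k + 1) := by
  have h0 : ∀ g, (ρ g : Matrix (Fin m) (Fin m) ℤ) ∈ Band m 0 := by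
    intro g
    have := Band.add (Band.mono (Nat.zero_le 1) (hρ g)) Band.one
    simpa using this
  induction k with
  | zero => intro g _; exact hρ g
  | succ k ih =>
    let H : Subgroup F :=
      { carrier := {g | ((ρ g : Matrix (Fin m) (Fin m) ℤ) - 1) ∈ Band m (k + 1 + 1)}
        mul_mem' := by
          intro a b ha hb
          replace ha : ((ρ a : Matrix (Fin m) (Fin m) ℤ) - 1) ∈ Band m (k + 1 + 1) := ha
          replace hb : ((ρ b : Matrix (Fin m) (Fin m) ℤ) - 1) ∈ Band m (k + 1 + 1) := hb
          have e : (ρ (a * b) : Matrix (Fin m) (Fin m) ℤ) - 1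
              = ((ρ a : Matrix (Fin m) (Fin m) ℤ) - 1) * (ρ b : Matrix (Fin m) (Fin m) ℤ)
                + ((ρ b : Matrix (Fin m) (Fin m) ℤ) - 1) := by
            rw [map_mul, Units.val_mul]; noncomm_ring
          change _ ∈ Band m (k + 1 + 1)
          rw [e]
          exact Band.add (Band.mul (j := 0) ha (h0 b)) hb
        one_mem' := by
          change _ ∈ Band m (k + 1 + 1)
          rw [map_one, Units.val_one, sub_self]
          intro p q _; rfl
        inv_mem' := by
          intro a ha
          replace ha : ((ρ a : Matrix (Fin m) (Fin m) ℤ) - 1) ∈ Band m (k + 1 + 1) := ha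
          have e : (ρ a⁻¹ : Matrix (Fin m) (Fin m) ℤ) - 1
              = -(((ρ a : Matrix (Fin m) (Fin m) ℤ) - 1) * (ρ a⁻¹ : Matrix (Fin m) (Fin m) ℤ)) := by
            have : (ρ a : Matrix (Fin m) (Fin m) ℤ) * (ρ a⁻¹ : Matrix (Fin m) (Fin m) ℤ) = 1 := by
              rw [← Units.val_mul, ← map_mul, mul_inv_cancel, map_one, Units.val_one]
            rw [sub_mul, this]; noncomm_ring
          change _ ∈ Band m (k + 1 + 1)
          rw [e]
          exact Band.neg (Band.mul (j := 0) ha (h0 _)) }
    have hle : (⊤ : Subgroup F).lowerCentralSeries (k + 1) ≤ H := by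
      rw [Subgroup.lowerCentralSeries_succ, Subgroup.commutator_le]
      intro a ha b _
      change _ ∈ Band m (k + 1 + 1)
      have e : (ρ ⁅a, b⁆ : Matrix (Fin m) (Fin m) ℤ) - 1
          = ((((ρ a : Matrix (Fin m) (Fin m) ℤ) - 1) * ((ρ b : Matrix (Fin m) (Fin m) ℤ) - 1))
            - (((ρ b : Matrix (Fin m) (Fin m) ℤ) - 1) * ((ρ a : Matrix (Fin m) (Fin m) ℤ) - 1)))
            * (ρ (a⁻¹ * b⁻¹) : Matrix (Fin m) (Fin m) ℤ) := by
        have h1 : (ρ ⁅a, b⁆ : Matrix (Fin m) (Fin m) ℤ)
            = (ρ a : Matrix (Fin m) (Fin m) ℤ) * (ρ b : Matrix (Fin m) (Fin m) ℤ)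
              * (ρ (a⁻¹ * b⁻¹) : Matrix (Fin m) (Fin m) ℤ) := by
          rw [← Units.val_mul, ← Units.val_mul, ← map_mul, ← map_mul, commutatorElement_def]
          congr 2; group
        have h2 : (ρ b : Matrix (Fin m) (Fin m) ℤ) * (ρ a : Matrix (Fin m) (Fin m) ℤ)
              * (ρ (a⁻¹ * b⁻¹) : Matrix (Fin m) (Fin m) ℤ) = 1 := by
          rw [← Units.val_mul, ← Units.val_mul, ← map_mul, ← map_mul]
          have : b * a * (a⁻¹ * b⁻¹) = 1 := by group
          rw [this, map_one, Units.val_one]
        rw [h1]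
        have h3 : ((((ρ a : Matrix (Fin m) (Fin m) ℤ) - 1) * ((ρ b : Matrix (Fin m) (Fin m) ℤ) - 1))
            - (((ρ b : Matrix (Fin m) (Fin m) ℤ) - 1) * ((ρ a : Matrix (Fin m) (Fin m) ℤ) - 1)))
            = (ρ a : Matrix (Fin m) (Fin m) ℤ) * (ρ b : Matrix (Fin m) (Fin m) ℤ)
              - (ρ b : Matrix (Fin m) (Fin m) ℤ) * (ρ a : Matrix (Fin m) (Fin m) ℤ) := by
          noncomm_ring
        rw [h3, sub_mul, h2]
      rw [e]
      have hab := Band.mul (ih a ha) (hρ b)
      have hba := Band.mul (hρ b) (ih a ha)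
      rw [add_comm 1 (k + 1)] at hba
      exact Band.mul (j := 0) (Band.sub hab hba) (h0 _)
    intro g hg
    exact hle hg

/-- The elementary nilpotent matrix attached to the letter `i` and to a list of syllables. -/
def Nil {α : Type*} [DecidableEq α] (s : List (α × ℤ)) (i : α) :
    Matrix (Fin (s.length + 1)) (Fin (s.length + 1)) ℤ :=
  fun p q => if (q : ℕ) = p + 1 ∧ (s[(p : ℕ)]?).map Prod.fst = some i then 1 else 0

lemma Nil_band {α : Type*} [DecidableEq α] (s : List (α × ℤ)) (i : α) :
    Nil s i ∈ Band (s.length + 1) 1 := by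
  intro p q h
  unfold Nil
  rw [if_neg]
  rintro ⟨h1, _⟩
  omega

/-- The list of syllables has no two consecutive syllables in the same letter. -/
def Alt {α : Type*} (s : List (α × ℤ)) : Prop := s.IsChain fun a b => a.1 ≠ b.1

lemma Nil_sq {α : Type*} [DecidableEq α] (s : List (α × ℤ)) (hs : Alt s) (i : α) :
    Nil s i * Nil s i = 0 := by
  ext p q
  rw [Matrix.mul_apply]
  apply Finset.sum_eq_zero
  intro t _
  unfold Nil
  by_cases h1 : (t : ℕ) = p + 1 ∧ (s[(p : ℕ)]?).map Prod.fst = some i
  · by_cases h2 : (q : ℕ) = t + 1 ∧ (s[(t : ℕ)]?).map Prod.fst = some i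
    · exfalso
      obtain ⟨h1a, h1b⟩ := h1
      obtain ⟨h2a, h2b⟩ := h2
      rw [h1a] at h2b
      have hlen : (p : ℕ) + 1 < s.length := by
        by_contra hc
        rw [List.getElem?_eq_none (by omega)] at h2b
        simp at h2b
      rw [List.getElem?_eq_getElem (by omega)] at h1b
      rw [List.getElem?_eq_getElem hlen] at h2b
      simp only [Option.map_some, Option.some.injEq] at h1b h2b
      have := List.isChain_iff_getElem.mp hs (p : ℕ) (by omega)
      exact this (h1b.trans h2b.symm)
    · rw [if_neg h2, mul_zero]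
  · rw [if_neg h1, zero_mul]


/-- The unit `1 + Nil s i`. -/
def nilUnit {α : Type*} [DecidableEq α] (s : List (α × ℤ)) (hs : Alt s) (i : α) :
    (Matrix (Fin (s.length + 1)) (Fin (s.length + 1)) ℤ)ˣ where
  val := 1 + Nil s i
  inv := 1 - Nil s i
  val_inv := by
    have := Nil_sq s hs i
    calc (1 + Nil s i) * (1 - Nil s i) = 1 - Nil s i * Nil s i := by noncomm_ring
      _ = 1 := by rw [this, sub_zero]
  inv_val := by
    have := Nil_sq s hs i
    calc (1 - Nil s i) * (1 + Nil s i) = 1 - Nil s i * Nil s i := by noncomm_ring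
      _ = 1 := by rw [this, sub_zero]

/-- The representation attached to a syllable list. -/
def rep {α : Type*} [DecidableEq α] (s : List (α × ℤ)) (hs : Alt s) :
    FreeGroup α →* (Matrix (Fin (s.length + 1)) (Fin (s.length + 1)) ℤ)ˣ :=
  FreeGroup.lift (nilUnit s hs)

lemma rep_band {α : Type*} [DecidableEq α] (s : List (α × ℤ)) (hs : Alt s) (g : FreeGroup α) :
    ((rep s hs g : Matrix (Fin (s.length + 1)) (Fin (s.length + 1)) ℤ) - 1)
      ∈ Band (s.length + 1) 1 := by
  induction g using FreeGroup.induction_on with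
  | C1 => rw [map_one, Units.val_one, sub_self]; intro p q _; rfl
  | of i =>
    have : (rep s hs (FreeGroup.of i) : Matrix (Fin (s.length + 1)) (Fin (s.length + 1)) ℤ)
        = 1 + Nil s i := by
      simp [rep, nilUnit]
    change ((rep s hs (FreeGroup.of i) : Matrix (Fin (s.length + 1)) (Fin (s.length + 1)) ℤ) - 1)
      ∈ Band (s.length + 1) 1
    rw [this, add_sub_cancel_left]
    exact Nil_band s i
  | inv_of i _ =>
    have : (rep s hs (FreeGroup.of i)⁻¹ : Matrix (Fin (s.length + 1)) (Fin (s.length + 1)) ℤ)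
        = 1 - Nil s i := by
      rw [map_inv]
      simp [rep, nilUnit]
    change ((rep s hs (FreeGroup.of i)⁻¹ : Matrix (Fin (s.length + 1)) (Fin (s.length + 1)) ℤ) - 1)
      ∈ Band (s.length + 1) 1
    rw [this]
    have h2 : (1 - Nil s i : Matrix (Fin (s.length + 1)) (Fin (s.length + 1)) ℤ) - 1
        = -(Nil s i) := by abel
    rw [h2]
    exact Band.neg (Nil_band s i)
  | mul a b ha hb =>
    have e : (rep s hs (a * b) : Matrix (Fin (s.length + 1)) (Fin (s.length + 1)) ℤ) - 1
        = ((rep s hs a : Matrix (Fin (s.length + 1)) (Fin (s.length + 1)) ℤ) - 1)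
            * ((rep s hs b : Matrix (Fin (s.length + 1)) (Fin (s.length + 1)) ℤ) - 1)
          + ((rep s hs a : Matrix (Fin (s.length + 1)) (Fin (s.length + 1)) ℤ) - 1)
          + ((rep s hs b : Matrix (Fin (s.length + 1)) (Fin (s.length + 1)) ℤ) - 1) := by
      rw [map_mul, Units.val_mul]; noncomm_ring
    rw [e]
    exact Band.add (Band.add (Band.mono (by norm_num) (Band.mul ha hb)) ha) hb

lemma nilUnit_zpow {α : Type*} [DecidableEq α] (s : List (α × ℤ)) (hs : Alt s) (i : α) (e : ℤ) :
    (((nilUnit s hs i) ^ e : (Matrix (Fin (s.length + 1)) (Fin (s.length + 1)) ℤ)ˣ) :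
      Matrix (Fin (s.length + 1)) (Fin (s.length + 1)) ℤ) = 1 + e • Nil s i := by
  have hsq := Nil_sq s hs i
  have key : ∀ n : ℕ, (((nilUnit s hs i) ^ n :
      (Matrix (Fin (s.length + 1)) (Fin (s.length + 1)) ℤ)ˣ) :
      Matrix (Fin (s.length + 1)) (Fin (s.length + 1)) ℤ) = 1 + (n : ℤ) • Nil s i := by
    intro n
    induction n with
    | zero => simp
    | succ n ih =>
      rw [pow_succ, Units.val_mul, ih]
      change (1 + (n : ℤ) • Nil s i) * (1 + Nil s i) = _
      have : (1 + (n : ℤ) • Nil s i) * (1 + Nil s i)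
          = 1 + ((n : ℤ) • Nil s i + Nil s i) + (n : ℤ) • (Nil s i * Nil s i) := by
        simp only [mul_add, add_mul, mul_one, one_mul, smul_mul_assoc]; abel
      rw [this, hsq, smul_zero, add_zero]
      push_cast
      rw [add_smul, one_smul]
  have key' : ∀ n : ℕ, (((nilUnit s hs i)⁻¹ ^ n :
      (Matrix (Fin (s.length + 1)) (Fin (s.length + 1)) ℤ)ˣ) :
      Matrix (Fin (s.length + 1)) (Fin (s.length + 1)) ℤ) = 1 - (n : ℤ) • Nil s i := by
    intro n
    induction n with
    | zero => simp
    | succ n ih =>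
      rw [pow_succ, Units.val_mul, ih]
      change (1 - (n : ℤ) • Nil s i) * (1 - Nil s i) = _
      have : (1 - (n : ℤ) • Nil s i) * (1 - Nil s i)
          = 1 - ((n : ℤ) • Nil s i + Nil s i) + (n : ℤ) • (Nil s i * Nil s i) := by
        simp only [mul_sub, sub_mul, mul_one, one_mul, smul_mul_assoc]; abel
      rw [this, hsq, smul_zero, add_zero]
      push_cast
      rw [add_smul, one_smul]
  obtain ⟨n, rfl | rfl⟩ := e.eq_nat_or_neg
  · rw [zpow_natCast, key]
  · rw [_root_.zpow_neg, zpow_natCast, ← inv_pow, key', neg_smul, sub_eq_add_neg]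

/-- The product of a syllable list. -/
def sprod {α : Type*} (s : List (α × ℤ)) : FreeGroup α :=
  (s.map fun p => FreeGroup.of p.1 ^ p.2).prod

lemma Nil_mulVec {α : Type*} [DecidableEq α] (s : List (α × ℤ)) (i : α)
    (f : Fin (s.length + 1) → ℤ) (p : Fin (s.length + 1)) :
    (Nil s i *ᵥ f) p = if h : (p : ℕ) + 1 < s.length + 1 then
      (if (s[(p : ℕ)]?).map Prod.fst = some i then f ⟨p + 1, h⟩ else 0) else 0 := by
  rw [Matrix.mulVec, dotProduct]
  split_ifs with h h2
  · rw [Finset.sum_eq_single ⟨(p : ℕ) + 1, h⟩]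
    · unfold Nil
      rw [if_pos ⟨rfl, h2⟩, one_mul]
    · intro b _ hb
      unfold Nil
      rw [if_neg, zero_mul]
      rintro ⟨h3, _⟩
      apply hb
      ext
      exact h3
    · intro h3
      exact absurd (Finset.mem_univ _) h3
  · apply Finset.sum_eq_zero
    intro q _
    unfold Nil
    rw [if_neg, zero_mul]
    rintro ⟨_, h3⟩
    exact h2 h3
  · apply Finset.sum_eq_zero
    intro q _
    unfold Nil
    rw [if_neg, zero_mul]
    rintro ⟨h3, _⟩
    have := q.2
    omega

lemma sprod_mulVec {α : Type*} [DecidableEq α] (s : List (α × ℤ)) (hs : Alt s) :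
    ∀ (t pre : List (α × ℤ)), s = pre ++ t →
      (∀ p : Fin (s.length + 1), (p : ℕ) < pre.length →
        (((rep s hs (sprod t) : Matrix (Fin (s.length + 1)) (Fin (s.length + 1)) ℤ)
          *ᵥ (Pi.single (Fin.last _) 1)) p = 0)) ∧
      (∀ p : Fin (s.length + 1), (p : ℕ) = pre.length →
        (((rep s hs (sprod t) : Matrix (Fin (s.length + 1)) (Fin (s.length + 1)) ℤ)
          *ᵥ (Pi.single (Fin.last _) 1)) p = (t.map Prod.snd).prod)) := by
  intro t
  induction t with
  | nil =>
    intro pre h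
    have hlen : pre.length = s.length := by rw [h]; simp
    constructor
    · intro p hp
      simp only [sprod, List.map_nil, List.prod_nil, map_one, Units.val_one, Matrix.one_mulVec]
      rw [Pi.single_eq_of_ne]
      intro e
      subst e
      simp at hp
      omega
    · intro p hp
      simp only [sprod, List.map_nil, List.prod_nil, map_one, Units.val_one, Matrix.one_mulVec]
      have : p = Fin.last _ := by
        ext
        simp
        omega
      subst this
      simp
  | cons a t ih =>
    intro pre h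
    obtain ⟨i, e⟩ := a
    obtain ⟨ih1, ih2⟩ := ih (pre ++ [(i, e)]) (by rw [h]; simp)
    have hprod : sprod ((i, e) :: t) = FreeGroup.of i ^ e * sprod t := by
      simp [sprod]
    have hrep : (rep s hs (FreeGroup.of i ^ e) :
        Matrix (Fin (s.length + 1)) (Fin (s.length + 1)) ℤ) = 1 + e • Nil s i := by
      rw [map_zpow]
      have : rep s hs (FreeGroup.of i) = nilUnit s hs i := by simp [rep]
      rw [this, nilUnit_zpow]
    have hget : (s[pre.length]?).map Prod.fst = some i := by
      rw [h]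
      simp
    have hlt : pre.length < s.length := by rw [h]; simp
    constructor
    · intro p hp
      rw [hprod, map_mul, Units.val_mul, hrep, ← Matrix.mulVec_mulVec, Matrix.add_mulVec,
        Matrix.one_mulVec, Matrix.smul_mulVec, Pi.add_apply, Pi.smul_apply, Nil_mulVec]
      rw [ih1 p (by simp; omega)]
      split_ifs with h1 h2
      · rw [ih1 ⟨(p : ℕ) + 1, h1⟩ (by simp; omega)]; simp
      · simp
      · simp
    · intro p hp
      rw [hprod, map_mul, Units.val_mul, hrep, ← Matrix.mulVec_mulVec, Matrix.add_mulVec,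
        Matrix.one_mulVec, Matrix.smul_mulVec, Pi.add_apply, Pi.smul_apply, Nil_mulVec]
      rw [ih1 p (by simp; omega)]
      rw [dif_pos (by omega), if_pos (by rw [hp]; exact hget)]
      rw [ih2 ⟨(p : ℕ) + 1, by omega⟩ (by simp; omega)]
      simp

lemma rep_sprod_ne_one {α : Type*} [DecidableEq α] (s : List (α × ℤ)) (hs : Alt s)
    (hne : s ≠ []) (h0 : ∀ p ∈ s, p.2 ≠ 0) : rep s hs (sprod s) ≠ 1 := by
  intro h
  have h1 := (sprod_mulVec s hs s [] rfl).2 0 rfl
  rw [h, Units.val_one, Matrix.one_mulVec, Pi.single_eq_of_ne] at h1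
  · have : (s.map Prod.snd).prod ≠ 0 := by
      apply List.prod_ne_zero
      intro hc
      simp only [List.mem_map] at hc
      obtain ⟨p, hp, hp0⟩ := hc
      exact h0 p hp hp0
    exact this h1.symm
  · intro e
    have := congrArg Fin.val e
    simp at this
    exact hne (List.eq_nil_of_length_eq_zero this.symm)

/-- Every element of a free group is a product of an alternating list of nonzero syllables. -/
lemma exists_sprod {α : Type*} [DecidableEq α] (g : FreeGroup α) :
    ∃ s : List (α × ℤ), Alt s ∧ (∀ p ∈ s, p.2 ≠ 0) ∧ g = sprod s := by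
  have step : ∀ (i : α) (n : ℤ) (s : List (α × ℤ)), Alt s → (∀ p ∈ s, p.2 ≠ 0) →
      ∃ s' : List (α × ℤ), Alt s' ∧ (∀ p ∈ s', p.2 ≠ 0) ∧
        FreeGroup.of i ^ n * sprod s = sprod s' := by
    intro i n s hs h0
    by_cases hn : n = 0
    · subst hn
      exact ⟨s, hs, h0, by simp⟩
    cases s with
    | nil =>
      refine ⟨[(i, n)], List.isChain_singleton _, ?_, by simp [sprod]⟩
      intro p hp
      simp only [List.mem_singleton] at hp
      subst hp
      exact hn
    | cons a t =>
      obtain ⟨j, m⟩ := a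
      have ht : Alt t := by
        cases t with
        | nil => exact List.isChain_nil
        | cons b t => exact (List.isChain_cons_cons.mp hs).2
      have h0t : ∀ p ∈ t, p.2 ≠ 0 := fun p hp => h0 p (List.mem_cons_of_mem _ hp)
      by_cases hij : i = j
      · subst hij
        have e1 : FreeGroup.of i ^ n * sprod ((i, m) :: t)
            = FreeGroup.of i ^ (n + m) * sprod t := by
          simp [sprod, _root_.zpow_add, mul_assoc]
        by_cases hnm : n + m = 0
        · refine ⟨t, ht, h0t, ?_⟩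
          rw [e1, hnm, zpow_zero, one_mul]
        · refine ⟨(i, n + m) :: t, ?_, ?_, ?_⟩
          · cases t with
            | nil => exact List.isChain_singleton _
            | cons b t =>
              have := List.isChain_cons_cons.mp hs
              exact List.isChain_cons_cons.mpr ⟨this.1, this.2⟩
          · intro p hp
            rcases List.mem_cons.mp hp with rfl | hp
            · exact hnm
            · exact h0t p hp
          · rw [e1]; simp [sprod]
      · refine ⟨(i, n) :: (j, m) :: t, List.isChain_cons_cons.mpr ⟨hij, hs⟩, ?_, by simp [sprod]⟩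
        intro p hp
        rcases List.mem_cons.mp hp with rfl | hp
        · exact hn
        · exact h0 p hp
  -- induction on words
  obtain ⟨L, rfl⟩ : ∃ L, FreeGroup.mk L = g := ⟨g.toWord, FreeGroup.mk_toWord⟩
  induction L with
  | nil => exact ⟨[], List.isChain_nil, by simp, by simp [sprod, FreeGroup.one_eq_mk]⟩
  | cons a L ih =>
    obtain ⟨s, hs, h0, hg⟩ := ih
    obtain ⟨i, b⟩ := a
    have hcons : FreeGroup.mk ((i, b) :: L)
        = FreeGroup.of i ^ (if b then (1 : ℤ) else -1) * FreeGroup.mk L := by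
      have : FreeGroup.mk ((i, b) :: L) = FreeGroup.mk [(i, b)] * FreeGroup.mk L := by
        rw [FreeGroup.mul_mk]; rfl
      rw [this]
      congr 1
      cases b <;> simp [FreeGroup.of, FreeGroup.inv_mk, FreeGroup.invRev]
    obtain ⟨s', hs', h0', hg'⟩ := step i (if b then (1 : ℤ) else -1) s hs h0
    exact ⟨s', hs', h0', by rw [hcons, hg, hg']⟩

/-- **Magnus**: free groups are residually nilpotent. -/
theorem residually_nilpotent {α : Type*} [DecidableEq α] (g : FreeGroup α)
    (hg : ∀ n : ℕ, ∃ k ≥ n, g ∈ (⊤ : Subgroup (FreeGroup α)).lowerCentralSeries k) : g = 1 := by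
  obtain ⟨s, hs, h0, rfl⟩ := exists_sprod g
  by_contra hne
  have hsne : s ≠ [] := by
    rintro rfl
    exact hne (by simp [sprod])
  apply rep_sprod_ne_one s hs hsne h0
  obtain ⟨k, hk, hmem⟩ := hg s.length
  have h1 := lcs_band (rep s hs) (rep_band s hs) k _ hmem
  have h2 := Band.eq_zero (Band.mono (show s.length + 1 ≤ k + 1 by omega) h1)
  ext1
  rw [Units.val_one]
  exact sub_eq_zero.mp h2

end Pool.Agent.Lib.MP_c4ae4c_al
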