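import Pool.Agent.Lib.MP_c4ae4c_al.Assoc
import Pool.Agent.Lib.MP_c4ae4c_al.ResNil

/-!
Transfer of the associativity law between free nilpotent groups and free groups.
-/

namespace Pool.Agent.Lib.MP_c4ae4c_al

open FreeGroup

lemma AssocWord.of_injective {w : FreeGroup (Fin 2)} {G H : Type*} [Group G] [Group H]
    (f : G →* H) (hf : Function.Injective f) (h : AssocWord w H) : AssocWord w G := by
  intro p q r
  apply hf
  rw [map_sub2, map_sub2, map_sub2, map_sub2]
  exact h _ _ _

/-- The homomorphism sending `x_i` to `b ^ i a b ^ (-i)`. -/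
def theta : FreeGroup (Fin 3) →* FreeGroup (Fin 2) :=
  FreeGroup.lift fun i =>
    FreeGroup.of 1 ^ ((i : ℕ) : ℤ) * FreeGroup.of 0 * FreeGroup.of 1 ^ (-((i : ℕ) : ℤ))

lemma theta_cons (i : Fin 3) (b : Bool) (M : List (Fin 3 × Bool)) :
    theta (FreeGroup.mk ((i, b) :: M)) =
      FreeGroup.of 1 ^ ((i : ℕ) : ℤ) * (FreeGroup.mk [(0, b)] *
        (FreeGroup.of 1 ^ (-((i : ℕ) : ℤ)) * theta (FreeGroup.mk M))) := by
  rw [mk_cons', _root_.map_mul, ← mul_assoc, ← mul_assoc]
  congr 1
  cases b
  · have : FreeGroup.mk [(i, false)] = (FreeGroup.of i)⁻¹ := by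
      simp [FreeGroup.of, FreeGroup.inv_mk, FreeGroup.invRev]
    rw [this, _root_.map_inv]
    have h2 : FreeGroup.mk [((0 : Fin 2), false)] = (FreeGroup.of 0)⁻¹ := by
      simp [FreeGroup.of, FreeGroup.inv_mk, FreeGroup.invRev]
    rw [h2]
    simp only [theta, FreeGroup.lift_apply_of]
    group
  · have : FreeGroup.mk [(i, true)] = FreeGroup.of i := rfl
    rw [this]
    have h2 : FreeGroup.mk [((0 : Fin 2), true)] = FreeGroup.of 0 := rfl
    rw [h2]
    simp only [theta, FreeGroup.lift_apply_of]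

lemma of_one_zpow_ne_one {α : Type*} (k : α) (n : ℤ) (hn : n ≠ 0) :
    (FreeGroup.of k : FreeGroup α) ^ n ≠ 1 := by
  classical
  exact zpow_ne_one_of_ne_one (FreeGroup.of_ne_one k) n hn

lemma theta_key (M : List (Fin 3 × Bool)) :
    ∀ i b, FreeGroup.IsReduced ((i, b) :: M) →
      pre (0 : Fin 2) (theta (FreeGroup.mk ((i, b) :: M))) = FreeGroup.of 1 ^ ((i : ℕ) : ℤ) ∧
      ∃ t, (FreeGroup.of 1 ^ (-((i : ℕ) : ℤ)) * theta (FreeGroup.mk ((i, b) :: M))).toWord
        = (0, b) :: t := by
  have hB : ∀ n : ℤ, SFree (0 : Fin 2) (FreeGroup.of 1 ^ n) := fun n =>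
    (SFree.of (by decide)).zpow n
  induction M with
  | nil =>
    intro i b _
    have hw : (FreeGroup.mk [((0 : Fin 2), b)] *
        (FreeGroup.of 1 ^ (-((i : ℕ) : ℤ)) * theta (FreeGroup.mk []))).toWord
        = (0, b) :: (FreeGroup.of 1 ^ (-((i : ℕ) : ℤ)) * theta (FreeGroup.mk [])).toWord := by
      apply toWord_cons_of
      intro t ht
      have e : theta (FreeGroup.mk []) = 1 := _root_.map_one _
      rw [e, mul_one] at ht
      have := (hB (-((i : ℕ) : ℤ))).toWord (0, !b) (by rw [ht]; exact List.mem_cons_self)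
      exact this rfl
    constructor
    · rw [theta_cons, pre_mul (hB _), pre_eq_one_of_head hw, mul_one]
    · refine ⟨(FreeGroup.of 1 ^ (-((i : ℕ) : ℤ)) * theta (FreeGroup.mk [])).toWord, ?_⟩
      rw [theta_cons, ← mul_assoc, ← zpow_add, neg_add_cancel, zpow_zero, one_mul]
      exact hw
  | cons x M ih =>
    obtain ⟨j, d⟩ := x
    intro i b hred
    have hred' := (FreeGroup.isReduced_cons_cons.mp hred).2
    have hij := (FreeGroup.isReduced_cons_cons.mp hred).1
    obtain ⟨ih1, t, ih2⟩ := ih j d hred'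
    have hw : (FreeGroup.mk [((0 : Fin 2), b)] *
        (FreeGroup.of 1 ^ (-((i : ℕ) : ℤ)) * theta (FreeGroup.mk ((j, d) :: M)))).toWord
        = (0, b) :: (FreeGroup.of 1 ^ (-((i : ℕ) : ℤ))
            * theta (FreeGroup.mk ((j, d) :: M))).toWord := by
      apply toWord_cons_of
      intro t' ht
      by_cases h : i = j
      · subst h
        have hbd : b = d := hij rfl
        subst hbd
        rw [ih2] at ht
        simp only [List.cons.injEq, Prod.mk.injEq, true_and] at ht
        have := ht.1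
        cases b <;> simp at this
      · have h1 := pre_eq_one_of_head ht
        rw [pre_mul (hB _), ih1, ← zpow_add] at h1
        have hne : (-((i : ℕ) : ℤ)) + ((j : ℕ) : ℤ) ≠ 0 := by
          intro hc
          apply h
          ext
          omega
        exact of_one_zpow_ne_one 1 _ hne h1
    constructor
    · rw [theta_cons, pre_mul (hB _), pre_eq_one_of_head hw, mul_one]
    · refine ⟨(FreeGroup.of 1 ^ (-((i : ℕ) : ℤ))
            * theta (FreeGroup.mk ((j, d) :: M))).toWord, ?_⟩
      rw [theta_cons, ← mul_assoc, ← zpow_add, neg_add_cancel, zpow_zero, one_mul]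
      exact hw

lemma theta_injective : Function.Injective theta := by
  rw [injective_iff_map_eq_one]
  intro g hg
  rcases hw : g.toWord with _ | ⟨⟨i, b⟩, M⟩
  · exact FreeGroup.toWord_eq_nil_iff.mp hw
  · exfalso
    have hred : FreeGroup.IsReduced ((i, b) :: M) := by
      rw [← hw]; exact FreeGroup.isReduced_toWord
    obtain ⟨_, t, h2⟩ := theta_key M i b hred
    rw [← hw, FreeGroup.mk_toWord, hg, mul_one] at h2
    have hB : SFree (0 : Fin 2) (FreeGroup.of 1 ^ (-((i : ℕ) : ℤ))) :=
      (SFree.of (by decide)).zpow _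
    exact hB.toWord (0, b) (by rw [h2]; exact List.mem_cons_self) rfl

/-- Associativity on one noncyclic free group is associativity on the free group of rank 3. -/
lemma AssocWord.rank_three {w : FreeGroup (Fin 2)} {n : ℕ} (hn : 2 ≤ n)
    (h : AssocWord w (FreeGroup (Fin n))) : AssocWord w (FreeGroup (Fin 3)) := by
  have h2 : AssocWord w (FreeGroup (Fin 2)) := by
    let i0 : Fin n := ⟨0, by omega⟩
    let i1 : Fin n := ⟨1, by omega⟩
    have hne : i0 ≠ i1 := by
      intro hc
      have := congrArg Fin.val hc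
      simp [i0, i1] at this
    exact AssocWord.of_injective _ (sub2_of_injective hne) h
  exact AssocWord.of_injective theta theta_injective h2

/-- Associativity on infinitely many free nilpotent quotients gives associativity on the free
group. -/
lemma AssocWord.of_quotients {w : FreeGroup (Fin 2)} {n : ℕ}
    (h : ∀ K : ℕ, ∃ k ≥ K, AssocWord w
      (FreeGroup (Fin n) ⧸ (⊤ : Subgroup (FreeGroup (Fin n))).lowerCentralSeries k)) :
    AssocWord w (FreeGroup (Fin n)) := by
  intro p q r
  rw [← mul_inv_eq_one]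
  apply residually_nilpotent
  intro K
  obtain ⟨k, hk, hkw⟩ := h K
  refine ⟨k, hk, ?_⟩
  rw [← QuotientGroup.eq_one_iff]
  let f := QuotientGroup.mk' ((⊤ : Subgroup (FreeGroup (Fin n))).lowerCentralSeries k)
  change f _ = 1
  rw [_root_.map_mul, _root_.map_inv, map_sub2, map_sub2, map_sub2, map_sub2, mul_inv_eq_one]
  exact hkw _ _ _

/-- The quotients are nontrivial for arbitrarily large classes. -/
lemma quotient_nontrivial {n : ℕ} (hn : 2 ≤ n) : ∃ K, ∀ k ≥ K, ∃ x : FreeGroup (Fin n) ⧸
    (⊤ : Subgroup (FreeGroup (Fin n))).lowerCentralSeries k, x ≠ 1 := by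
  by_contra hc
  push Not at hc
  have : (FreeGroup.of (⟨0, by omega⟩ : Fin n)) = 1 := by
    apply residually_nilpotent
    intro K
    obtain ⟨k, hk, hx⟩ := hc K
    refine ⟨k, hk, ?_⟩
    rw [← QuotientGroup.eq_one_iff]
    exact hx _
  exact FreeGroup.of_ne_one _ this

end Pool.Agent.Lib.MP_c4ae4c_al
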