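import Mathlib

/-!
Combinatorics of reduced words in free groups: initial segments avoiding a letter.
-/

namespace Pool.Agent.Lib.MP_c4ae4c_al

open FreeGroup

variable {α : Type*} [DecidableEq α]

/-- The part of the reduced word of `g` before the first occurrence of the letter `s`. -/
def pre (s : α) (g : FreeGroup α) : FreeGroup α :=
  FreeGroup.mk (g.toWord.takeWhile fun l => decide (l.1 ≠ s))

/-- `u` is a product of letters different from `s`. -/
def SFree (s : α) (u : FreeGroup α) : Prop :=
  ∃ L : List (α × Bool), u = FreeGroup.mk L ∧ ∀ l ∈ L, l.1 ≠ s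

omit [DecidableEq α] in
lemma SFree.one (s : α) : SFree s (1 : FreeGroup α) := ⟨[], rfl, by simp⟩

omit [DecidableEq α] in
lemma SFree.mul {s : α} {u v : FreeGroup α} (hu : SFree s u) (hv : SFree s v) :
    SFree s (u * v) := by
  obtain ⟨L, rfl, hL⟩ := hu
  obtain ⟨M, rfl, hM⟩ := hv
  refine ⟨L ++ M, by rw [FreeGroup.mul_mk], ?_⟩
  intro l hl
  rcases List.mem_append.mp hl with h | h
  · exact hL l h
  · exact hM l h

omit [DecidableEq α] in
lemma SFree.inv {s : α} {u : FreeGroup α} (hu : SFree s u) : SFree s u⁻¹ := by
  obtain ⟨L, rfl, hL⟩ := hu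
  refine ⟨FreeGroup.invRev L, by rw [FreeGroup.inv_mk], ?_⟩
  intro l hl
  simp only [FreeGroup.invRev, List.mem_reverse, List.mem_map] at hl
  obtain ⟨m, hm, rfl⟩ := hl
  exact hL m hm

omit [DecidableEq α] in
lemma SFree.of {s a : α} (h : a ≠ s) : SFree s (FreeGroup.of a) :=
  ⟨[(a, true)], rfl, by simpa using h⟩

omit [DecidableEq α] in
lemma SFree.zpow {s : α} {u : FreeGroup α} (hu : SFree s u) (n : ℤ) : SFree s (u ^ n) := by
  have h : ∀ m : ℕ, SFree s (u ^ m) := by
    intro m
    induction m with
    | zero => simpa using SFree.one s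
    | succ m ih => rw [pow_succ]; exact ih.mul hu
  obtain ⟨m, rfl | rfl⟩ := n.eq_nat_or_neg
  · rw [zpow_natCast]; exact h m
  · rw [zpow_neg, zpow_natCast]; exact (h m).inv

lemma toWord_letter_mul (a : α) (b : Bool) (g : FreeGroup α) :
    (FreeGroup.mk [(a, b)] * g).toWord =
      List.casesOn g.toWord [(a, b)] fun hd tl =>
        if a = hd.1 ∧ b = !hd.2 then tl else (a, b) :: hd :: tl := by
  conv_lhs => rw [← FreeGroup.mk_toWord (x := g), FreeGroup.mul_mk, FreeGroup.toWord_mk]
  rw [List.singleton_append, FreeGroup.reduce.cons, FreeGroup.reduce_toWord]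

lemma pre_letter_mul {s a : α} (h : a ≠ s) (b : Bool) (g : FreeGroup α) :
    pre s (FreeGroup.mk [(a, b)] * g) = FreeGroup.mk [(a, b)] * pre s g := by
  unfold pre
  rw [toWord_letter_mul]
  rcases hg : g.toWord with _ | ⟨⟨c, d⟩, tl⟩
  · simp [h]
  · simp only
    by_cases hc : a = c ∧ b = !d
    · rw [if_pos hc]
      obtain ⟨rfl, rfl⟩ := hc
      rw [List.takeWhile_cons_of_pos (by simpa using h), FreeGroup.mul_mk]
      rw [List.singleton_append]
      apply Eq.symm
      apply Quot.sound
      have := @FreeGroup.Red.Step.cons_not_rev α (tl.takeWhile fun l => decide (l.1 ≠ s)) a d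
      exact this
    · rw [if_neg hc, List.takeWhile_cons_of_pos (by simpa using h), FreeGroup.mul_mk]
      rfl

lemma pre_mk_mul {s : α} (L : List (α × Bool)) (hL : ∀ l ∈ L, l.1 ≠ s) (g : FreeGroup α) :
    pre s (FreeGroup.mk L * g) = FreeGroup.mk L * pre s g := by
  induction L with
  | nil => change pre s (1 * g) = 1 * pre s g; rw [one_mul, one_mul]
  | cons a L ih =>
    have e : FreeGroup.mk (a :: L) = FreeGroup.mk [a] * FreeGroup.mk L := by
      rw [FreeGroup.mul_mk]; rfl
    rw [e, mul_assoc, mul_assoc, ← ih (fun l hl => hL l (List.mem_cons_of_mem _ hl))]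
    obtain ⟨c, d⟩ := a
    exact pre_letter_mul (hL (c, d) List.mem_cons_self) d _

lemma pre_mul {s : α} {u : FreeGroup α} (hu : SFree s u) (g : FreeGroup α) :
    pre s (u * g) = u * pre s g := by
  obtain ⟨L, rfl, hL⟩ := hu
  exact pre_mk_mul L hL g

lemma pre_one (s : α) : pre s (1 : FreeGroup α) = 1 := by
  unfold pre
  rw [FreeGroup.toWord_one]
  rfl

lemma pre_sfree {s : α} {u : FreeGroup α} (hu : SFree s u) : pre s u = u := by
  have := pre_mul hu 1
  rwa [mul_one, pre_one, mul_one] at this

/-- If the reduced word starts with the letter `s`, then `pre` is trivial. -/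
lemma pre_eq_one_of_head {s : α} {g : FreeGroup α} {b : Bool} {t : List (α × Bool)}
    (h : g.toWord = (s, b) :: t) : pre s g = 1 := by
  unfold pre
  rw [h, List.takeWhile_cons_of_neg (by simp)]
  rfl

/-- No cancellation at the front if the word starts with `(s, b)` or with another letter. -/
lemma toWord_cons_of {s : α} {b : Bool} {g : FreeGroup α}
    (h : ∀ t, g.toWord ≠ (s, !b) :: t) :
    (FreeGroup.mk [(s, b)] * g).toWord = (s, b) :: g.toWord := by
  rw [toWord_letter_mul]
  rcases hg : g.toWord with _ | ⟨⟨c, d⟩, tl⟩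
  · rfl
  · simp only
    rw [if_neg]
    rintro ⟨rfl, hb⟩
    apply h tl
    rw [hg, hb, Bool.not_not]

/-- Signed length of the initial run of the letter `c`. -/
def run (c : Fin 2) : List (Fin 2 × Bool) → ℤ
  | [] => 0
  | (i, b) :: M => if i = c then (if b then 1 else -1) + run c M else 0

lemma run_cons_self (c : Fin 2) (b : Bool) (M : List (Fin 2 × Bool)) :
    run c ((c, b) :: M) = (if b then 1 else -1) + run c M := by
  simp [run]

lemma run_cons_ne {c i : Fin 2} (h : i ≠ c) (b : Bool) (M : List (Fin 2 × Bool)) :
    run c ((i, b) :: M) = 0 := by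
  simp [run, h]

lemma run_sign (c : Fin 2) (M : List (Fin 2 × Bool)) :
    ∀ b, FreeGroup.IsReduced ((c, b) :: M) →
      (b = true → 0 < run c ((c, b) :: M)) ∧ (b = false → run c ((c, b) :: M) < 0) := by
  induction M with
  | nil =>
    intro b _
    cases b <;> simp [run]
  | cons a M ih =>
    obtain ⟨i, d⟩ := a
    intro b hred
    rw [FreeGroup.isReduced_cons_cons] at hred
    obtain ⟨h1, h2⟩ := hred
    by_cases hi : i = c
    · subst hi
      have hbd : b = d := h1 rfl
      subst hbd
      have := ih b h2
      rw [run_cons_self]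
      constructor
      · intro hb
        have h3 := this.1 hb
        simp [hb] at h3 ⊢
        omega
      · intro hb
        have h3 := this.2 hb
        simp [hb] at h3 ⊢
        omega
    · rw [run_cons_self, run_cons_ne hi]
      cases b <;> simp

lemma run_ne_zero (c : Fin 2) (M : List (Fin 2 × Bool)) (b : Bool)
    (h : FreeGroup.IsReduced ((c, b) :: M)) : run c ((c, b) :: M) ≠ 0 := by
  have := run_sign c M b h
  cases b
  · exact (this.2 rfl).ne
  · exact (this.1 rfl).ne'

/-- Evaluation: the letter `c` goes to `u`, the other letter goes to `of s`. -/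
def ev (s : α) (c : Fin 2) (u : FreeGroup α) : FreeGroup (Fin 2) →* FreeGroup α :=
  FreeGroup.lift fun i => if i = c then u else FreeGroup.of s

omit [DecidableEq α] in
lemma ev_cons (s : α) (c : Fin 2) (u : FreeGroup α) (i : Fin 2) (b : Bool)
    (M : List (Fin 2 × Bool)) :
    ev s c u (FreeGroup.mk ((i, b) :: M)) =
      (if i = c then u ^ (if b then (1 : ℤ) else -1) else FreeGroup.mk [(s, b)])
        * ev s c u (FreeGroup.mk M) := by
  have e : FreeGroup.mk ((i, b) :: M) = FreeGroup.mk [(i, b)] * FreeGroup.mk M := by
    rw [FreeGroup.mul_mk]; rfl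
  rw [e, _root_.map_mul]
  congr 1
  unfold ev
  rw [FreeGroup.lift_mk]
  cases b <;> by_cases h : i = c <;> simp [h, FreeGroup.of, FreeGroup.inv_mk, FreeGroup.invRev]

/-- **Key lemma.** Evaluating a reduced word at `u` (free of `s`, of infinite order) and `s`. -/
lemma pre_ev {s : α} {u : FreeGroup α} (hu : SFree s u) (hinf : ∀ n : ℤ, n ≠ 0 → u ^ n ≠ 1)
    (c : Fin 2) (M : List (Fin 2 × Bool)) (hM : FreeGroup.IsReduced M) :
    pre s (ev s c u (FreeGroup.mk M)) = u ^ run c M ∧
    ∀ i b M', M = (i, b) :: M' → i ≠ c →
      (ev s c u (FreeGroup.mk M)).toWord = (s, b) :: (ev s c u (FreeGroup.mk M')).toWord := by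
  induction M with
  | nil =>
    constructor
    · change pre s (ev s c u 1) = u ^ run c []
      rw [_root_.map_one, pre_one]
      simp [run]
    · intro i b M' h
      simp at h
  | cons a M ih =>
    obtain ⟨i, b⟩ := a
    have hM' : FreeGroup.IsReduced M := by
      cases M with
      | nil => exact FreeGroup.IsReduced.nil
      | cons x M => exact (FreeGroup.isReduced_cons_cons.mp hM).2
    obtain ⟨ih1, ih2⟩ := ih hM'
    by_cases hi : i = c
    · subst hi
      constructor
      · rw [ev_cons, if_pos rfl, pre_mul (hu.zpow _), ih1, run_cons_self, zpow_add]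
      · intro j d M' h hj
        simp only [List.cons.injEq, Prod.mk.injEq] at h
        exact absurd h.1.1.symm hj
    · have hw : (ev s c u (FreeGroup.mk ((i, b) :: M))).toWord
          = (s, b) :: (ev s c u (FreeGroup.mk M)).toWord := by
        rw [ev_cons, if_neg hi]
        apply toWord_cons_of
        intro t ht
        cases M with
        | nil =>
          change (ev s c u 1).toWord = _ at ht
          rw [_root_.map_one, FreeGroup.toWord_one] at ht
          exact absurd ht.symm (List.cons_ne_nil _ _)
        | cons x M =>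
          obtain ⟨j, d⟩ := x
          by_cases hj : j = c
          · subst hj
            have h1 := pre_eq_one_of_head ht
            rw [ih1] at h1
            exact hinf _ (run_ne_zero _ _ _ hM') h1
          · have h2 := ih2 j d M rfl hj
            rw [h2] at ht
            simp only [List.cons.injEq, Prod.mk.injEq, true_and] at ht
            have hij : i = j := by
              have : ∀ x y z : Fin 2, x ≠ z → y ≠ z → x = y := by decide
              exact this i j c hi hj
            have := (FreeGroup.isReduced_cons_cons.mp hM).1 hij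
            simp only at this
            rw [this] at ht
            cases d <;> simp at ht
      constructor
      · rw [pre_eq_one_of_head hw, run_cons_ne hi, zpow_zero]
      · intro j d M' h _
        simp only [List.cons.injEq, Prod.mk.injEq] at h
        obtain ⟨⟨rfl, rfl⟩, rfl⟩ := h
        exact hw

end Pool.Agent.Lib.MP_c4ae4c_al
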